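import Mathlib
import Pool.Agent.H20.ConfigH
import Pool.Agent.H20.Unif

set_option autoImplicit false

namespace Pool.Agent.Results.MP_5d01ce_co.Antichain

open Pool.Agent.H20.Relax Pool.Agent.H20.Config

/-- There is a sequence `N 0, N 1, ...` of finite matroids such that no `N i` is isomorphic to a
minor of another `N j`, such that every positive integer `k` is the Tutte connectivity of some
`N i`, and such that no `N i` has a minor isomorphic to the uniform matroid `U_{2,6}`. -/
theorem result :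
    ∃ (E : ℕ → Type) (_ : ∀ i, Finite (E i)) (N : ∀ i, Matroid (E i)),
      (∀ i, (N i).E = Set.univ) ∧
      (∀ i j, i ≠ j → ¬ IsoMinor (N i) (N j)) ∧
      (∀ k, 1 ≤ k → ∃ i, TutteConnEq (N i) k) ∧
      ∃ U : Matroid (Fin 6), U.E = Set.univ ∧ (∀ B : Set (Fin 6), U.IsBase B ↔ B.ncard = 2) ∧
        ∀ i, ¬ IsoMinor U (N i) := by
  obtain ⟨E, N, ρ, hρ, h⟩ := exists_seq
  obtain ⟨U, hUE, hU⟩ := exists_unif 2 6 (by norm_num)
  refine ⟨E, fun i => (h i).fin, N, fun i => (h i).univ, ?_, ?_, U, hUE, hU, ?_⟩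
  · intro i j hij
    apply (h i).no_minor (h j)
    intro heq
    exact hij (Nat.succ_injective (hρ.injective heq))
  · intro k hk
    refine ⟨k - 1, ?_⟩
    have h1 := (h (k - 1)).tutte
    rwa [Nat.sub_add_cancel hk] at h1
  · intro i hm
    haveI := (h i).fin
    obtain ⟨M', hM, hc, hI⟩ := unif_minor hUE hU hm
    exact (h i).no_U26 M' hM hc hI

end Pool.Agent.Results.MP_5d01ce_co.Antichain
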